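import Mathlib
import Pool.Agent.Helper40.Free.FDefs
import Pool.Agent.Helper40.Conv.CDefs

open MeasureTheory Filter Topology
open scoped ComplexConjugate

namespace Pool.Agent.Helper79.Lin

open Pool.Agent.Helper40.Mob

universe u v w

theorem genc_nontrivial {A : Type u} [CStarAlgebra A] (τ : A →L[ℂ] ℂ) (hτ : IsState τ) :
    Nontrivial A := by
  by_contra h
  rw [not_nontrivial_iff_subsingleton] at h
  have h1 : τ = 0 := by
    ext x
    rw [Subsingleton.elim x 0]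
    simp
  have := hτ.2
  rw [h1, norm_zero] at this
  exact zero_ne_one this

theorem genc_iter {A : Type u} [CStarAlgebra A] [Nontrivial A] {G : Type v} [Group G]
    (U : G → unitary A) (θ : G → G) (α : A →⋆ₐ[ℂ] A)
    (hα : ∀ g, ∃ c : ℂ, α (U g : A) = c • (U (θ g) : A)) (g : G) (n : ℕ) :
    ∃ c : ℂ, ‖c‖ ≤ 1 ∧ α^[n] (U g : A) = c • (U (θ^[n] g) : A) := by
  induction n with
  | zero => exact ⟨1, by simp, by simp⟩
  | succ n ih =>
    obtain ⟨c, hc1, hc⟩ := ih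
    obtain ⟨d, hd⟩ := hα (θ^[n] g)
    have hd1 : ‖d‖ ≤ 1 := by
      have h1 : ‖α (U (θ^[n] g) : A)‖ ≤ ‖(U (θ^[n] g) : A)‖ :=
        NonUnitalStarAlgHom.norm_apply_le α _
      rw [hd, norm_smul, CStarRing.norm_coe_unitary, CStarRing.norm_coe_unitary, mul_one] at h1
      exact h1
    refine ⟨c * d, ?_, ?_⟩
    · rw [norm_mul]
      exact mul_le_one₀ hc1 (norm_nonneg _) hd1
    · rw [Function.iterate_succ', Function.comp_apply, hc, map_smul, hd, smul_smul,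
        Function.iterate_succ', Function.comp_apply]

theorem genc_split (t : ℕ → ℝ) (q M : ℕ) :
    ∑ n ∈ Finset.range (q * M), t n =
      ∑ r ∈ Finset.range q, ∑ j ∈ Finset.range M, t (q * j + r) := by
  induction M with
  | zero => simp
  | succ M ih =>
    rw [Nat.mul_succ, Finset.sum_range_add, ih, ← Finset.sum_add_distrib]
    apply Finset.sum_congr rfl
    intro r _
    rw [Finset.sum_range_succ]

theorem genc_res {A : Type u} [CStarAlgebra A] [Nontrivial A] {G : Type v} [Group G]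
    (U : G → unitary A) (θ : G → G) (α : A →⋆ₐ[ℂ] A)
    (hα : ∀ g, ∃ c : ℂ, α (U g : A) = c • (U (θ g) : A)) (g : G) (q r M : ℕ) (ε : ℝ)
    (hb : ∀ c : ℕ → ℂ, (∀ n, ‖c n‖ ≤ 1) →
      ‖∑ n ∈ Finset.range M, c n • (U (θ^[q * n + r] g) : A)‖ ≤ ε * M)
    (ρ : A →L[ℂ] ℂ) (hρ : IsState ρ) :
    ∑ j ∈ Finset.range M, ‖ρ (α^[q * j + r] (U g : A))‖ ≤ ε * M := by
  have hρb : ∀ x, ‖ρ x‖ ≤ ‖x‖ := fun x => by
    have := ρ.le_opNorm x
    rwa [hρ.2, one_mul] at this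
  choose d hd1 hd using fun n => genc_iter U θ α hα g n
  set z : ℕ → ℂ := fun j => ρ (α^[q * j + r] (U g : A)) with hz
  have hbj : ∀ j, ∃ b : ℂ, ‖b‖ ≤ 1 ∧ b * z j = (‖z j‖ : ℂ) := by
    intro j
    by_cases h0 : z j = 0
    · exact ⟨0, by simp, by simp [h0]⟩
    · have hn : (‖z j‖ : ℂ) ≠ 0 := by exact_mod_cast norm_ne_zero_iff.2 h0
      refine ⟨conj (z j) / (‖z j‖ : ℂ), ?_, ?_⟩
      · rw [norm_div, RCLike.norm_conj, Complex.norm_real, norm_norm]
        exact (div_self (norm_ne_zero_iff.2 h0)).le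
      · rw [div_mul_eq_mul_div, Complex.conj_mul', div_eq_iff hn, sq]
  choose b hb1 hb2 using hbj
  have h1 := hb (fun j => b j * d (q * j + r)) (fun j => by
    rw [norm_mul]
    exact mul_le_one₀ (hb1 j) (norm_nonneg _) (hd1 _))
  have h2 : ∑ j ∈ Finset.range M, (b j * d (q * j + r)) • (U (θ^[q * j + r] g) : A) =
      ∑ j ∈ Finset.range M, b j • α^[q * j + r] (U g : A) := by
    apply Finset.sum_congr rfl
    intro j _
    rw [hd, smul_smul]
  rw [h2] at h1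
  have h3 : ρ (∑ j ∈ Finset.range M, b j • α^[q * j + r] (U g : A)) =
      ((∑ j ∈ Finset.range M, ‖z j‖ : ℝ) : ℂ) := by
    rw [map_sum, Complex.ofReal_sum]
    apply Finset.sum_congr rfl
    intro j _
    rw [map_smul, smul_eq_mul]
    exact hb2 j
  have h4 : (∑ j ∈ Finset.range M, ‖z j‖ : ℝ) =
      ‖ρ (∑ j ∈ Finset.range M, b j • α^[q * j + r] (U g : A))‖ := by
    rw [h3, Complex.norm_real, Real.norm_of_nonneg (Finset.sum_nonneg fun j _ => norm_nonneg _)]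
  calc ∑ j ∈ Finset.range M, ‖ρ (α^[q * j + r] (U g : A))‖ = ∑ j ∈ Finset.range M, ‖z j‖ := rfl
    _ = _ := h4
    _ ≤ _ := hρb _
    _ ≤ _ := h1

/-- the averaging argument -/
theorem genc_core {A : Type u} [CStarAlgebra A] {G : Type v} [Group G]
    (U : G → unitary A) (τ : A →L[ℂ] ℂ) (hτ : IsState τ)
    (θ : G → G) (α : A →⋆ₐ[ℂ] A) (hα : ∀ g, ∃ c : ℂ, α (U g : A) = c • (U (θ g) : A)) (g : G)
    (q : ℕ) (hq : 1 ≤ q)
    (hA : ∀ ε : ℝ, 0 < ε → ∃ N₀ : ℕ, ∀ N ≥ N₀, ∀ r < q, ∀ c : ℕ → ℂ, (∀ n, ‖c n‖ ≤ 1) →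
      ‖∑ n ∈ Finset.range N, c n • (U (θ^[q * n + r] g) : A)‖ ≤ ε * N)
    (ρ : A →L[ℂ] ℂ) (hρ : IsState ρ) :
    Tendsto (fun N : ℕ => (∑ n ∈ Finset.range N, ‖ρ (α^[n] (U g : A))‖) / (N : ℝ)) atTop
      (𝓝 0) := by
  have hnt : Nontrivial A := genc_nontrivial τ hτ
  rw [Metric.tendsto_atTop]
  intro ε hε
  obtain ⟨N₀, hN₀⟩ := hA (ε / 3) (by positivity)
  refine ⟨q * N₀ + q, fun N hN => ?_⟩
  have hNq : q ≤ N := by omega
  have hNpos : 0 < N := by omega
  have hNR : (0 : ℝ) < N := by exact_mod_cast hNpos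
  set M : ℕ := N / q + 1 with hM
  have hMN : N ≤ q * M := by
    have h1 := Nat.div_add_mod N q
    have h2 := Nat.mod_lt N (show 0 < q by omega)
    rw [hM, Nat.mul_succ]
    omega
  have hM0 : N₀ ≤ M := by
    have h1 : N₀ ≤ N / q := by
      rw [Nat.le_div_iff_mul_le (by omega)]
      calc N₀ * q = q * N₀ := mul_comm _ _
        _ ≤ N := by omega
    omega
  have hqM : q * M ≤ N + q := by
    rw [hM, Nat.mul_succ]
    have := Nat.mul_div_le N q
    omega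
  have h1 : ∑ n ∈ Finset.range N, ‖ρ (α^[n] (U g : A))‖ ≤
      ∑ n ∈ Finset.range (q * M), ‖ρ (α^[n] (U g : A))‖ :=
    Finset.sum_le_sum_of_subset_of_nonneg (Finset.range_subset_range.2 hMN)
      (fun _ _ _ => norm_nonneg _)
  rw [genc_split] at h1
  have h2 : ∑ r ∈ Finset.range q, ∑ j ∈ Finset.range M, ‖ρ (α^[q * j + r] (U g : A))‖ ≤
      ∑ r ∈ Finset.range q, ε / 3 * M := by
    apply Finset.sum_le_sum
    intro r hr
    exact genc_res U θ α hα g q r M (ε / 3)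
      (fun c hc => hN₀ M hM0 r (Finset.mem_range.1 hr) c hc) ρ hρ
  rw [Finset.sum_const, Finset.card_range, nsmul_eq_mul] at h2
  have h3 : (q : ℝ) * (ε / 3 * M) ≤ ε / 3 * (2 * N) := by
    have h4 : (q : ℝ) * M ≤ 2 * N := by
      have h5 : q * M ≤ 2 * N := by omega
      exact_mod_cast h5
    calc (q : ℝ) * (ε / 3 * M) = ε / 3 * (q * M) := by ring
      _ ≤ _ := mul_le_mul_of_nonneg_left h4 (by positivity)
  rw [Real.dist_eq, sub_zero, abs_of_nonneg (div_nonneg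
    (Finset.sum_nonneg fun _ _ => norm_nonneg _) hNR.le), div_lt_iff₀ hNR]
  have h6 : ε / 3 * (2 * N) < ε * N := by
    have : 0 < ε * N := by positivity
    linarith
  linarith

end Pool.Agent.Helper79.Lin
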