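import Mathlib
import Pool.Agent.Helper79.Lin.GENCcore

open MeasureTheory Filter Topology

namespace Pool.Agent.Helper79.Lin

open Pool.Agent.Helper40.Mob

universe u v w

/-- generic orbits, with the conclusion of ALG as a hypothesis -/
theorem genc_of_alg {A : Type u} [CStarAlgebra A] {G : Type v} [Group G]
    (U : G → unitary A) (τ : A →L[ℂ] ℂ) (hτ : IsState τ)
    (θ : G → G) (α : A →⋆ₐ[ℂ] A) (hα : ∀ g, ∃ c : ℂ, α (U g : A) = c • (U (θ g) : A)) (g : G)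
    (q : ℕ) (hq : 1 ≤ q)
    {X : Type w} [TopologicalSpace X] (t s : X ≃ₜ X)
    (hALG : ∀ ε : ℝ, 0 < ε → ∃ N₀ : ℕ, ∀ N ≥ N₀, ∀ (x : ℕ → G) (κin κout : G → X),
      (∀ n γ, κout (x n * γ) = t^[n] (s^[n] (κin γ))) → ∀ c : ℕ → ℂ, (∀ n, ‖c n‖ ≤ 1) →
      ‖∑ n ∈ Finset.range N, c n • (U (x n) : A)‖ ≤ ε * N)
    (hκ : ∀ r < q, ∃ κin κout : G → X, ∀ n γ,
      κout (θ^[q * n + r] g * γ) = t^[n] (s^[n] (κin γ)))
    (ρ : A →L[ℂ] ℂ) (hρ : IsState ρ) :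
    Tendsto (fun N : ℕ => (∑ n ∈ Finset.range N, ‖ρ (α^[n] (U g : A))‖) / (N : ℝ)) atTop
      (𝓝 0) := by
  refine genc_core U τ hτ θ α hα g q hq ?_ ρ hρ
  intro ε hε
  obtain ⟨N₀, hN₀⟩ := hALG ε hε
  refine ⟨N₀, fun N hN r hr c hc => ?_⟩
  obtain ⟨κin, κout, hk⟩ := hκ r hr
  exact hN₀ N hN (fun n => θ^[q * n + r] g) κin κout hk c hc

end Pool.Agent.Helper79.Lin
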