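import Pool.Agent.Helper85.Lin.ALG
import Pool.Agent.Helper79.Lin.GENCpre

/-!
Generic orbits: module GENC of the project on linear groups.
-/

open MeasureTheory Filter Topology

namespace Pool.Agent.Helper79.Lin

open Pool.Agent.Helper40.Mob

universe u v w

/-- generic orbits -/
theorem GENC {A : Type u} [CStarAlgebra A] {G : Type v} [Group G]
    (U : G → unitary A) (hU : ∀ g h, ∃ c : ℂ, (U g : A) * (U h : A) = c • (U (g * h) : A))
    (τ : A →L[ℂ] ℂ) (hτ : IsState τ) (hτU : ∀ g, g ≠ 1 → τ (U g : A) = 0)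
    (hfaith : ∀ a, (∀ x y, τ (x * a * y) = 0) → a = 0)
    (hspan : ∀ a : A, a ∈ closure ((Submodule.span ℂ (Set.range fun g => (U g : A)) :
      Submodule ℂ A) : Set A))
    (θ : G → G) (α : A →⋆ₐ[ℂ] A) (hα : ∀ g, ∃ c : ℂ, α (U g : A) = c • (U (θ g) : A)) (g : G)
    (q : ℕ) (hq : 1 ≤ q)
    {X : Type w} [TopologicalSpace X] [CompactSpace X] [T2Space X] [MeasurableSpace X]
    [BorelSpace X] (t s : X ≃ₜ X)
    (hsing : ∀ ν ρ : Measure X, IsFiniteMeasure ν → IsFiniteMeasure ρ → Measure.map t ν = ν →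
      Measure.map s ρ = ρ → ν ⟂ₘ ρ)
    (hκ : ∀ r < q, ∃ κin κout : G → X, ∀ n γ,
      κout (θ^[q * n + r] g * γ) = t^[n] (s^[n] (κin γ)))
    (ρ : A →L[ℂ] ℂ) (hρ : IsState ρ) :
    Tendsto (fun N : ℕ => (∑ n ∈ Finset.range N, ‖ρ (α^[n] (U g : A))‖) / (N : ℝ)) atTop
      (𝓝 0) :=
  genc_of_alg U τ hτ θ α hα g q hq t s
    (fun ε hε => Pool.Agent.Helper85.Lin.ALG U hU τ hτ hτU hfaith hspan t s hsing ε hε) hκ ρ hρ

end Pool.Agent.Helper79.Lin
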